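import Pool.Agent.N955.MO.Sl2

set_option autoImplicit false
set_option linter.unusedVariables false

/-!
# Lie algebras of endomorphisms of a symplectic plane over the rational numbers
-/

open Module Function Matrix

noncomputable section

namespace Pool.Agent.N955.MO

/-- the rational plane -/
abbrev V2 : Type := Fin 2 → ℚ

/-- the matrix of an endomorphism -/
def mt (X : Module.End ℚ V2) : S := LinearMap.toMatrix' X

theorem mt_mul (X Y : Module.End ℚ V2) : mt (X * Y) = mt X * mt Y := LinearMap.toMatrix'_mul X Y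

theorem mt_sub (X Y : Module.End ℚ V2) : mt (X - Y) = mt X - mt Y := map_sub LinearMap.toMatrix' X Y

theorem mt_inj {X Y : Module.End ℚ V2} (h : mt X = mt Y) : X = Y := LinearMap.toMatrix'.injective h

theorem mt_surj (P : S) : ∃ X, mt X = P := ⟨Matrix.toLin' P, LinearMap.toMatrix'_toLin' P⟩

theorem mt_mulVec (X : Module.End ℚ V2) (v : V2) : (mt X).mulVec v = X v :=
  LinearMap.toMatrix'_mulVec X v

theorem dec (u : V2) : u = u 0 • (Pi.single 0 1 : V2) + u 1 • (Pi.single 1 1 : V2) := by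
  funext i
  fin_cases i <;> simp

variable {𝔤 : Submodule ℚ (Module.End ℚ V2)}

/-- skew endomorphisms have trace zero -/
theorem trace_zero {ω : V2 →ₗ[ℚ] V2 →ₗ[ℚ] ℚ} (hanti : ∀ u v, ω u v = -ω v u)
    (hnd : ∀ u, (∀ v, ω u v = 0) → u = 0) {X : Module.End ℚ V2}
    (hX : ∀ u v, ω (X u) v + ω u (X v) = 0) : (mt X).trace = 0 := by
  have hself : ∀ u, ω u u = 0 := fun u => by
    have := hanti u u
    linarith
  obtain ⟨e0, he0⟩ : ∃ e : V2, e = Pi.single 0 1 := ⟨_, rfl⟩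
  obtain ⟨e1, he1⟩ : ∃ e : V2, e = Pi.single 1 1 := ⟨_, rfl⟩
  have hdec : ∀ u : V2, u = u 0 • e0 + u 1 • e1 := fun u => by rw [he0, he1]; exact dec u
  have hne : ω e0 e1 ≠ 0 := by
    intro h
    have h1 : e0 = 0 := hnd e0 fun v => by
      rw [hdec v, map_add, map_smul, map_smul, h, hself, smul_zero, smul_zero, add_zero]
    have h2 := congrFun h1 0
    rw [he0] at h2
    simp at h2
  have h1 := hX e0 e1
  rw [hdec (X e0), hdec (X e1)] at h1
  simp only [map_add, map_smul, LinearMap.add_apply, LinearMap.smul_apply, smul_eq_mul, hself,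
    mul_zero, add_zero, zero_add] at h1
  have h2 : (X e0 0 + X e1 1) * ω e0 e1 = 0 := by linear_combination h1
  have h3 := (mul_eq_zero.1 h2).resolve_right hne
  rw [Matrix.trace_fin_two]
  unfold mt
  rw [LinearMap.toMatrix'_apply, LinearMap.toMatrix'_apply]
  have h4 : ∀ j : Fin 2, (fun j' => if j' = j then (1 : ℚ) else 0) = (Pi.single j 1 : V2) := by
    intro j
    funext i
    rw [Pi.single_apply]
  rw [he0, he1] at h3
  simpa only [h4] using h3

/-- There is no stable line. -/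
theorem no_line (hcom : ∀ P : Module.End ℚ V2, (∀ X ∈ 𝔤, X * P = P * X) → ∃ c : ℚ, P = c • 1)
    (hsemi : ∀ U : Submodule ℚ V2, (∀ X ∈ 𝔤, ∀ u ∈ U, X u ∈ U) →
      ∃ U' : Submodule ℚ V2, (∀ X ∈ 𝔤, ∀ u ∈ U', X u ∈ U') ∧ IsCompl U U')
    (v : V2) (hv : v ≠ 0) (h : ∀ X ∈ 𝔤, ∃ t : ℚ, X v = t • v) : False := by
  obtain ⟨U', hU', hc⟩ := hsemi (Submodule.span ℚ {v}) (by
    intro X hX u hu
    obtain ⟨s, rfl⟩ := Submodule.mem_span_singleton.1 hu
    obtain ⟨t, ht⟩ := h X hX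
    rw [map_smul, ht, smul_smul]
    exact Submodule.smul_mem _ _ (Submodule.mem_span_singleton_self v))
  have hst : ∀ X ∈ 𝔤, ∀ u ∈ Submodule.span ℚ {v}, X u ∈ Submodule.span ℚ {v} := by
    intro X hX u hu
    obtain ⟨s, rfl⟩ := Submodule.mem_span_singleton.1 hu
    obtain ⟨t, ht⟩ := h X hX
    rw [map_smul, ht, smul_smul]
    exact Submodule.smul_mem _ _ (Submodule.mem_span_singleton_self v)
  have hP : ∀ X ∈ 𝔤, X * Submodule.projection _ _ hc = Submodule.projection _ _ hc * X := by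
    intro X hX
    refine LinearMap.ext fun w => ?_
    have hw : w ∈ Submodule.span ℚ {v} ⊔ U' := by rw [hc.sup_eq_top]; exact Submodule.mem_top
    obtain ⟨l, hl, l', hl', rfl⟩ := Submodule.mem_sup.1 hw
    rw [Module.End.mul_apply, Module.End.mul_apply]
    have e1 : (Submodule.projection _ _ hc) (l + l') = l := by
      rw [map_add, Submodule.projection_apply_of_mem_left hc hl,
        Submodule.projection_apply_of_mem_right hc hl', add_zero]
    have e2 : (Submodule.projection _ _ hc) (X (l + l')) = X l := by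
      rw [map_add, map_add, Submodule.projection_apply_of_mem_left hc (hst X hX l hl),
        Submodule.projection_apply_of_mem_right hc (hU' X hX l' hl'), add_zero]
    rw [e1, e2]
  obtain ⟨c, hPc⟩ := hcom _ hP
  have hvL : v ∈ Submodule.span ℚ {v} := Submodule.mem_span_singleton_self v
  have h1 : v = c • v := by
    have h2 := Submodule.projection_apply_of_mem_left hc hvL
    rw [hPc] at h2
    rw [LinearMap.smul_apply, Module.End.one_apply] at h2
    exact h2.symm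
  have hc1 : c = 1 := by
    have h2 : (1 - c) • v = 0 := by rw [sub_smul, one_smul, ← h1, sub_self]
    have h3 := (smul_eq_zero.1 h2).resolve_right hv
    linarith
  have hU0 : U' = ⊥ := by
    rw [eq_bot_iff]
    intro u hu
    have h2 := Submodule.projection_apply_of_mem_right hc hu
    rw [hPc, hc1, one_smul, Module.End.one_apply] at h2
    rw [Submodule.mem_bot]
    exact h2
  have htop : Submodule.span ℚ {v} = ⊤ := by
    have h2 := hc.sup_eq_top
    rwa [hU0, sup_bot_eq] at h2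
  have h3 : finrank ℚ (Submodule.span ℚ {v}) = 2 := by
    rw [htop, finrank_top, Module.finrank_fintype_fun_eq_card, Fintype.card_fin]
  have h4 : finrank ℚ (Submodule.span ℚ {v}) = 1 := finrank_span_singleton hv
  omega

/-- The Lie algebra is `sl(2)`. -/
theorem mem_iff {ω : V2 →ₗ[ℚ] V2 →ₗ[ℚ] ℚ} (hanti : ∀ u v, ω u v = -ω v u)
    (hnd : ∀ u, (∀ v, ω u v = 0) → u = 0) (hskew : ∀ X ∈ 𝔤, ∀ u v, ω (X u) v + ω u (X v) = 0)
    (hbr : ∀ X ∈ 𝔤, ∀ Y ∈ 𝔤, X * Y - Y * X ∈ 𝔤)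
    (hcom : ∀ P : Module.End ℚ V2, (∀ X ∈ 𝔤, X * P = P * X) → ∃ c : ℚ, P = c • 1)
    (hsemi : ∀ U : Submodule ℚ V2, (∀ X ∈ 𝔤, ∀ u ∈ U, X u ∈ U) →
      ∃ U' : Submodule ℚ V2, (∀ X ∈ 𝔤, ∀ u ∈ U', X u ∈ U') ∧ IsCompl U U')
    (X : Module.End ℚ V2) : X ∈ 𝔤 ↔ (mt X).trace = 0 := by
  constructor
  · intro hX
    exact trace_zero hanti hnd (hskew X hX)
  · intro hX
    have hmem : ∀ Y : Module.End ℚ V2, mt Y ∈ 𝔤.map (LinearMap.toMatrix' :
        (V2 →ₗ[ℚ] V2) ≃ₗ[ℚ] S).toLinearMap ↔ Y ∈ 𝔤 := by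
      intro Y
      constructor
      · rintro ⟨Z, hZ, hZY⟩
        have : Z = Y := mt_inj hZY
        rw [← this]
        exact hZ
      · intro hY
        exact ⟨Y, hY, rfl⟩
    rw [← hmem]
    apply full (N := 𝔤.map (LinearMap.toMatrix' : (V2 →ₗ[ℚ] V2) ≃ₗ[ℚ] S).toLinearMap)
    · rintro _ ⟨Z, hZ, rfl⟩
      exact trace_zero hanti hnd (hskew Z hZ)
    · rintro _ ⟨Z, hZ, rfl⟩ _ ⟨Y, hY, rfl⟩
      refine ⟨Z * Y - Y * Z, hbr Z hZ Y hY, ?_⟩
      change mt (Z * Y - Y * Z) = mt Z * mt Y - mt Y * mt Z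
      rw [mt_sub, mt_mul, mt_mul]
    · intro P hP
      obtain ⟨Q, rfl⟩ := mt_surj P
      obtain ⟨c, hc⟩ := hcom Q fun Z hZ => by
        apply mt_inj
        rw [mt_mul, mt_mul]
        exact hP _ ((hmem Z).2 hZ)
      refine ⟨c, ?_⟩
      rw [hc]
      unfold mt
      rw [map_smul]
      congr 1
      exact LinearMap.toMatrix'_one
    · intro v hv hall
      refine no_line (𝔤 := 𝔤) hcom hsemi v hv fun Z hZ => ?_
      obtain ⟨t, ht⟩ := hall _ ((hmem Z).2 hZ)
      exact ⟨t, by rw [← mt_mulVec]; exact ht⟩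
    · exact hX

/-- `sl(2)` is simple. -/
theorem simple_end {I : Submodule ℚ (Module.End ℚ V2)}
    (hfull : ∀ X : Module.End ℚ V2, X ∈ 𝔤 ↔ (mt X).trace = 0) (hI : I ≤ 𝔤)
    (hst : ∀ X ∈ 𝔤, ∀ Y ∈ I, X * Y - Y * X ∈ I) : I = ⊥ ∨ I = 𝔤 := by
  have hmem : ∀ Y : Module.End ℚ V2, mt Y ∈ I.map (LinearMap.toMatrix' :
      (V2 →ₗ[ℚ] V2) ≃ₗ[ℚ] S).toLinearMap ↔ Y ∈ I := by
    intro Y
    constructor
    · rintro ⟨Z, hZ, hZY⟩
      have : Z = Y := mt_inj hZY
      rw [← this]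
      exact hZ
    · intro hY
      exact ⟨Y, hY, rfl⟩
  rcases simple (I.map (LinearMap.toMatrix' : (V2 →ₗ[ℚ] V2) ≃ₗ[ℚ] S).toLinearMap) (by
      rintro _ ⟨Z, hZ, rfl⟩
      exact (hfull Z).1 (hI hZ)) (by
      rintro y hy _ ⟨Z, hZ, rfl⟩
      obtain ⟨Y, rfl⟩ := mt_surj y
      refine ⟨Y * Z - Z * Y, hst Y ((hfull Y).2 hy) Z hZ, ?_⟩
      change mt (Y * Z - Z * Y) = mt Y * mt Z - mt Z * mt Y
      rw [mt_sub, mt_mul, mt_mul]) with h | h
  · left
    rw [eq_bot_iff]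
    intro Y hY
    have h1 := (hmem Y).2 hY
    rw [h, Submodule.mem_bot] at h1
    rw [Submodule.mem_bot]
    apply mt_inj
    rw [h1]
    exact (map_zero LinearMap.toMatrix').symm
  · right
    refine le_antisymm hI fun Y hY => (hmem Y).1 (h _ ((hfull Y).1 hY))

end Pool.Agent.N955.MO
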