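import Pool.Agent.N192.MO.StmB
import Pool.Agent.N955.MO.End2

set_option autoImplicit false
set_option linter.unusedVariables false
set_option linter.unusedSimpArgs false

/-!
# Project MO, part ELL: elliptic curves without complex multiplication are of spin type of rank
three (helper955)
-/

open Module Function TensorProduct Matrix

noncomputable section

namespace Pool.Agent.N955.MO

open Pool.Agent.Y102 Pool.Agent.W516.DR Pool.Agent.H204R3.GP Pool.Agent.W516.KC
open Pool.Agent.N192.GP (SpinMatK NoIdeals Idl S_ELL)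

/-- the complex matrices of size two -/
abbrev SC : Type := Matrix (Fin 2) (Fin 2) ℂ

/-- the Pauli matrices -/
def P1 : SC := !![0, 1; 1, 0]
def P2 : SC := !![0, -Complex.I; Complex.I, 0]
def P3 : SC := !![1, 0; 0, -1]
def Pau : Fin 3 → SC := ![P1, P2, P3]

theorem Pau_sq (i : Fin 3) : Pau i * Pau i = 1 := by
  fin_cases i <;> ext a b <;> fin_cases a <;> fin_cases b <;>
    simp [Pau, P1, P2, P3, Matrix.mul_apply, Fin.sum_univ_two]

theorem Pau_anti (i j : Fin 3) (h : i ≠ j) : Pau i * Pau j = -(Pau j * Pau i) := by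
  fin_cases i <;> fin_cases j <;> first
    | exact absurd rfl h
    | (ext a b
       fin_cases a <;> fin_cases b <;>
        simp [Pau, P1, P2, P3, Matrix.mul_apply, Fin.sum_univ_two])

theorem Pau_trace (i j : Fin 3) (h : i ≠ j) : (Pau i * Pau j).trace = 0 := by
  have h1 : (Pau i * Pau j).trace = -(Pau i * Pau j).trace := by
    conv_lhs => rw [Pau_anti i j h, Matrix.trace_neg, Matrix.trace_mul_comm]
  have h2 : (2 : ℂ) * (Pau i * Pau j).trace = 0 := by linear_combination h1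
  exact (mul_eq_zero.1 h2).resolve_left two_ne_zero

theorem toC_toLin (x : S) : toC (Matrix.toLin' x) = x.map (algebraMap ℚ ℂ) := by
  rw [toC_eq, LinearMap.toMatrix'_toLin']

theorem toC_mt (X : Module.End ℚ V2) : toC X = (mt X).map (algebraMap ℚ ℂ) := toC_eq X

/-- The complex spans. -/
theorem span_eq {𝔤 : Submodule ℚ (Module.End ℚ V2)}
    (hfull : ∀ X : Module.End ℚ V2, X ∈ 𝔤 ↔ (mt X).trace = 0) :
    Submodule.span ℂ {Y | ∃ X ∈ 𝔤, Y = toC X} =
      Submodule.span ℂ {Y | ∃ i j : Fin 3, i ≠ j ∧ (0 : Fin 1) = 0 ∧ Y = Pau i * Pau j} := by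
  apply le_antisymm
  · rw [Submodule.span_le]
    rintro _ ⟨X, hX, rfl⟩
    obtain ⟨a, b, c, hx⟩ := exists_mk ((hfull X).1 hX)
    have h1 : toC X = (a : ℂ) • ((-Complex.I) • (Pau 0 * Pau 1)) +
        (((b : ℂ) + c) / 2) • ((-Complex.I) • (Pau 1 * Pau 2)) +
        (((c : ℂ) - b) / 2) • (Pau 0 * Pau 2) := by
      rw [toC_mt, hx]
      ext i j
      fin_cases i <;> fin_cases j <;>
        simp [mk, Pau, P1, P2, P3, Matrix.mul_apply, Fin.sum_univ_two, Matrix.map_apply] <;> ring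
    have hm : ∀ i j : Fin 3, i ≠ j → Pau i * Pau j ∈
        Submodule.span ℂ {Y | ∃ i j : Fin 3, i ≠ j ∧ (0 : Fin 1) = 0 ∧ Y = Pau i * Pau j} :=
      fun i j h => Submodule.subset_span ⟨i, j, h, rfl, rfl⟩
    rw [SetLike.mem_coe, h1]
    exact Submodule.add_mem _ (Submodule.add_mem _
      (Submodule.smul_mem _ _ (Submodule.smul_mem _ _ (hm 0 1 (by decide))))
      (Submodule.smul_mem _ _ (Submodule.smul_mem _ _ (hm 1 2 (by decide)))))
      (Submodule.smul_mem _ _ (hm 0 2 (by decide)))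
  · rw [Submodule.span_le]
    rintro _ ⟨i, j, h, -, rfl⟩
    have ht := Pau_trace i j h
    obtain ⟨M, hM⟩ : ∃ M, M = Pau i * Pau j := ⟨_, rfl⟩
    rw [← hM] at ht ⊢
    rw [Matrix.trace_fin_two] at ht
    have hm : ∀ x : S, x.trace = 0 → x.map (algebraMap ℚ ℂ) ∈
        Submodule.span ℂ {Y | ∃ X ∈ 𝔤, Y = toC X} := by
      intro x hx
      refine Submodule.subset_span ⟨Matrix.toLin' x, (hfull _).2 ?_, (toC_toLin x).symm⟩
      unfold mt
      rw [LinearMap.toMatrix'_toLin']
      exact hx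
    have h1 : M = (M 0 0) • (mk 1 0 0).map (algebraMap ℚ ℂ) +
        (M 0 1) • (mk 0 1 0).map (algebraMap ℚ ℂ) + (M 1 0) • (mk 0 0 1).map (algebraMap ℚ ℂ) := by
      ext a b
      fin_cases a <;> fin_cases b <;> simp [mk, Matrix.map_apply]
      linear_combination ht
    rw [SetLike.mem_coe, h1]
    exact Submodule.add_mem _ (Submodule.add_mem _
      (Submodule.smul_mem _ _ (hm _ (trace_mk _ _ _))) (Submodule.smul_mem _ _ (hm _ (trace_mk _ _ _))))
      (Submodule.smul_mem _ _ (hm _ (trace_mk _ _ _)))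

/-- **Part ELL.** -/
theorem ell : S_ELL := by
  intro A h
  have hcom : ∀ P : Module.End ℚ A.H1, (∀ X ∈ A.NA, X * P = P * X) → ∃ c : ℚ, P = c • 1 := by
    intro P hP
    have h1 : IsDeRhamBettiEnd QBar A.dR P := A.end_of_central (𝔥 := A.NA)
      (fun D lam => A.LA_le_NA (by
        rw [AbVar.LA_eq]
        exact X0_mem A.basis AbVar.tau_ne D lam)) hP
    obtain ⟨F, hF⟩ := A.hodge_end h1
    exact h P ⟨F, fun w => (hF w).symm⟩ h1
  have hfull : ∀ X : Module.End ℚ V2,
      X ∈ (A.NA : Submodule ℚ (Module.End ℚ V2)) ↔ (mt X).trace = 0 :=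
    mem_iff (𝔤 := A.NA) (ω := A.om) A.om_anti (fun u hu => A.om_nondeg hu)
      (fun X hX => A.NA_skew hX) (fun X hX Y hY => A.NA_bracket hX hY) hcom A.semi_NA
  refine ⟨⟨3, Pau, fun _ => 0, le_rfl, by decide, Pau_sq, Pau_anti, ?_, span_eq hfull⟩, ?_⟩
  · intro s
    have hs : s = 0 := Subsingleton.elim _ _
    subst hs
    simp
  · intro I hI
    exact simple_end (𝔤 := A.NA) hfull hI.1 hI.2

end Pool.Agent.N955.MO
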