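import Mathlib

set_option autoImplicit false
set_option linter.unusedSectionVars false
set_option linter.unusedSimpArgs false
set_option linter.unusedVariables false

/-!
# Lie algebras of rational matrices of size two without stable line
-/

open Matrix

noncomputable section

namespace Pool.Agent.N955.MO

/-- the matrices of size two -/
abbrev S : Type := Matrix (Fin 2) (Fin 2) ℚ

/-- the matrix with trace zero -/
def mk (a b c : ℚ) : S := !![a, b; c, -a]

theorem eq_mk {x : S} (h : x.trace = 0) : x = mk (x 0 0) (x 0 1) (x 1 0) := by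
  have h1 : x 0 0 + x 1 1 = 0 := by rwa [Matrix.trace_fin_two] at h
  ext i j
  fin_cases i <;> fin_cases j <;> simp [mk]
  linear_combination h1

theorem trace_mk (a b c : ℚ) : (mk a b c).trace = 0 := by
  simp [mk, Matrix.trace_fin_two]

theorem trace_br (x y : S) : (x * y - y * x).trace = 0 := by
  rw [Matrix.trace_sub, Matrix.trace_mul_comm, sub_self]

def H : S := mk 1 0 0
def E : S := mk 0 1 0
def F : S := mk 0 0 1

theorem mk_eq (a b c : ℚ) : mk a b c = a • H + b • E + c • F := by
  ext i j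
  fin_cases i <;> fin_cases j <;> simp [mk, H, E, F]

theorem br_HE : H * E - E * H = (2 : ℚ) • E := by
  ext i j
  fin_cases i <;> fin_cases j <;> simp [mk, H, E, Matrix.mul_apply, Fin.sum_univ_two]
  norm_num

theorem br_HF : H * F - F * H = (-2 : ℚ) • F := by
  ext i j
  fin_cases i <;> fin_cases j <;> simp [mk, H, F, Matrix.mul_apply, Fin.sum_univ_two]
  norm_num

theorem br_EF : E * F - F * E = H := by
  ext i j
  fin_cases i <;> fin_cases j <;> simp [mk, H, E, F, Matrix.mul_apply, Fin.sum_univ_two]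

/-- A subspace with `H`, `E`, `F`. -/
theorem all_of {N : Submodule ℚ S} (hH : H ∈ N) (hE : E ∈ N) (hF : F ∈ N) {x : S}
    (hx : x.trace = 0) : x ∈ N := by
  rw [eq_mk hx, mk_eq]
  exact N.add_mem (N.add_mem (N.smul_mem _ hH) (N.smul_mem _ hE)) (N.smul_mem _ hF)

theorem all_of_E {N : Submodule ℚ S} (hst : ∀ y : S, y.trace = 0 → ∀ x ∈ N, y * x - x * y ∈ N)
    (hE : E ∈ N) {x : S} (hx : x.trace = 0) : x ∈ N := by
  have hH : H ∈ N := by
    have h1 := hst F (trace_mk _ _ _) _ hE
    have h2 : H = -(F * E - E * F) := by rw [neg_sub, br_EF]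
    rw [h2]
    exact N.neg_mem h1
  have hF : F ∈ N := by
    have h1 := hst F (trace_mk _ _ _) _ hH
    have h2 : F = (2⁻¹ : ℚ) • (F * H - H * F) := by
      have h3 : F * H - H * F = (2 : ℚ) • F := by
        have h4 := congrArg Neg.neg br_HF
        rw [neg_sub] at h4
        rw [h4]
        module
      rw [h3, smul_smul]
      norm_num
    rw [h2]
    exact N.smul_mem _ h1
  exact all_of hH hE hF hx

theorem all_of_F {N : Submodule ℚ S} (hst : ∀ y : S, y.trace = 0 → ∀ x ∈ N, y * x - x * y ∈ N)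
    (hF : F ∈ N) {x : S} (hx : x.trace = 0) : x ∈ N := by
  have hH : H ∈ N := by
    have h1 := hst E (trace_mk _ _ _) _ hF
    rwa [br_EF] at h1
  have hE : E ∈ N := by
    have h1 := hst E (trace_mk _ _ _) _ hH
    have h2 : E = (-(2⁻¹) : ℚ) • (E * H - H * E) := by
      have h3 : E * H - H * E = (-2 : ℚ) • E := by
        have h4 := congrArg Neg.neg br_HE
        rw [neg_sub] at h4
        rw [h4]
        module
      rw [h3, smul_smul]
      norm_num
    rw [h2]
    exact N.smul_mem _ h1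
  exact all_of hH hE hF hx

/-- **Simplicity of `sl(2)`**. -/
theorem simple (N : Submodule ℚ S) (h0 : ∀ x ∈ N, x.trace = 0)
    (hst : ∀ y : S, y.trace = 0 → ∀ x ∈ N, y * x - x * y ∈ N) :
    N = ⊥ ∨ ∀ x : S, x.trace = 0 → x ∈ N := by
  by_cases hN : N = ⊥
  · exact Or.inl hN
  right
  intro w hw
  obtain ⟨x, hx, hx0⟩ := Submodule.exists_mem_ne_zero_of_ne_bot hN
  have hxe := eq_mk (h0 x hx)
  obtain ⟨p, hp⟩ : ∃ p, p = x 0 0 := ⟨_, rfl⟩
  obtain ⟨q, hq⟩ : ∃ q, q = x 0 1 := ⟨_, rfl⟩
  obtain ⟨r, hr⟩ : ∃ r, r = x 1 0 := ⟨_, rfl⟩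
  rw [← hp, ← hq, ← hr] at hxe
  by_cases hr0 : r = 0
  · by_cases hq0 : q = 0
    · have hp0 : p ≠ 0 := by
        intro h
        apply hx0
        rw [hxe, h, hq0, hr0]
        ext i j
        fin_cases i <;> fin_cases j <;> simp [mk]
      have h1 := hst E (trace_mk _ _ _) _ hx
      have h2 : E = (-(2 * p)⁻¹) • (E * x - x * E) := by
        rw [hxe, hq0, hr0]
        ext i j
        fin_cases i <;> fin_cases j <;> simp [mk, E, Matrix.mul_apply, Fin.sum_univ_two]
        field_simp
        norm_num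
      refine all_of_E hst ?_ hw
      rw [h2]
      exact N.smul_mem _ h1
    · have h1 := hst F (trace_mk _ _ _) _ (hst F (trace_mk _ _ _) _ hx)
      have h2 : F = (-(2 * q)⁻¹) • (F * (F * x - x * F) - (F * x - x * F) * F) := by
        rw [hxe]
        ext i j
        fin_cases i <;> fin_cases j <;> simp [mk, F, Matrix.mul_apply, Fin.sum_univ_two]
        field_simp
        ring
      refine all_of_F hst ?_ hw
      rw [h2]
      exact N.smul_mem _ h1
  · have h1 := hst E (trace_mk _ _ _) _ (hst E (trace_mk _ _ _) _ hx)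
    have h2 : E = (-(2 * r)⁻¹) • (E * (E * x - x * E) - (E * x - x * E) * E) := by
      rw [hxe]
      ext i j
      fin_cases i <;> fin_cases j <;> simp [mk, E, Matrix.mul_apply, Fin.sum_univ_two]
      field_simp
      ring
    refine all_of_E hst ?_ hw
    rw [h2]
    exact N.smul_mem _ h1


/-- the commutator of two matrices with trace zero -/
theorem br_mk (a b c a' b' c' : ℚ) : mk a b c * mk a' b' c' - mk a' b' c' * mk a b c =
    mk (b * c' - b' * c) (2 * (a * b' - a' * b)) (2 * (c * a' - c' * a)) := by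
  ext i j
  fin_cases i <;> fin_cases j <;> simp [mk, Matrix.mul_apply, Fin.sum_univ_two] <;> ring

theorem smul_mk (t a b c : ℚ) : t • mk a b c = mk (t * a) (t * b) (t * c) := by
  ext i j
  fin_cases i <;> fin_cases j <;> simp [mk]

theorem add_mk (a b c a' b' c' : ℚ) : mk a b c + mk a' b' c' = mk (a + a') (b + b') (c + c') := by
  ext i j
  fin_cases i <;> fin_cases j <;> simp [mk]
  ring

theorem mk_inj {a b c a' b' c' : ℚ} (h : mk a b c = mk a' b' c') : a = a' ∧ b = b' ∧ c = c' := by
  refine ⟨?_, ?_, ?_⟩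
  · simpa [mk] using congrFun (congrFun h 0) 0
  · simpa [mk] using congrFun (congrFun h 0) 1
  · simpa [mk] using congrFun (congrFun h 1) 0

theorem exists_mk {x : S} (h : x.trace = 0) : ∃ a b c, x = mk a b c := ⟨_, _, _, eq_mk h⟩

/-- Two elements whose commutator is not nilpotent generate `sl(2)`. -/
theorem full_of {N : Submodule ℚ S} (hbr : ∀ x ∈ N, ∀ y ∈ N, x * y - y * x ∈ N)
    {a b c a' b' c' : ℚ} (hx : mk a b c ∈ N) (hy : mk a' b' c' ∈ N)
    (hD : (b * c' - b' * c) ^ 2 + 4 * (c * a' - c' * a) * (a * b' - a' * b) ≠ 0)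
    {w : S} (hw : w.trace = 0) : w ∈ N := by
  obtain ⟨al, be, ga, rfl⟩ := exists_mk hw
  have hz := hbr _ hx _ hy
  rw [br_mk] at hz
  set p := b * c' - b' * c with hp
  set q := c * a' - c' * a with hq
  set r := a * b' - a' * b with hr
  set D := p ^ 2 + 4 * q * r with hDD
  -- the coordinates of `z` are `(p, 2 r, 2 q)`
  have key : mk al be ga = (D⁻¹ * (al * (b' * (2 * q) - c' * (2 * r)) + be * (c' * p - a' * (2 * q)) +
      ga * (a' * (2 * r) - b' * p))) • mk a b c +
      (D⁻¹ * (al * ((2 * r) * c - (2 * q) * b) + be * ((2 * q) * a - p * c) +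
      ga * (p * b - (2 * r) * a))) • mk a' b' c' +
      (D⁻¹ * (al * p + be * q + ga * r)) • mk p (2 * r) (2 * q) := by
    rw [smul_mk, smul_mk, smul_mk, add_mk, add_mk]
    have hD' : D ≠ 0 := hD
    congr 1
    · field_simp
      rw [hDD, hp, hq, hr]
      ring
    · field_simp
      rw [hDD, hp, hq, hr]
      ring
    · field_simp
      rw [hDD, hp, hq, hr]
      ring
  rw [key]
  exact N.add_mem (N.add_mem (N.smul_mem _ hx) (N.smul_mem _ hy)) (N.smul_mem _ hz)

/-- a vector with determinant zero is a multiple -/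
theorem exists_mul {v w : Fin 2 → ℚ} (hv : v ≠ 0) (h : v 0 * w 1 - v 1 * w 0 = 0) :
    ∃ t : ℚ, w = t • v := by
  by_cases h0 : v 0 = 0
  · have h1 : v 1 ≠ 0 := by
      intro h1
      apply hv
      funext i
      fin_cases i
      · exact h0
      · exact h1
    refine ⟨w 1 / v 1, ?_⟩
    rw [h0, zero_mul, zero_sub, neg_eq_zero] at h
    have h2 := (mul_eq_zero.1 h).resolve_left h1
    funext i
    fin_cases i
    · simp [h0, h2]
    · simp [h1]
  · refine ⟨w 0 / v 0, ?_⟩
    funext i
    fin_cases i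
    · simp [h0]
    · simp only [Fin.mk_one, Pi.smul_apply, smul_eq_mul]
      field_simp
      linear_combination h

/-- The line which is stable. -/
theorem stable_line {A B C : ℚ} (hz : mk A B C ≠ 0) (hd : A ^ 2 + B * C = 0) :
    ∃ v : Fin 2 → ℚ, v ≠ 0 ∧ ∀ a b c : ℚ,
      (b * C - B * c) ^ 2 + 4 * (c * A - C * a) * (a * B - A * b) = 0 →
      ∃ t : ℚ, (mk a b c).mulVec v = t • v := by
  by_cases h : B = 0 ∧ A = 0
  · obtain ⟨rfl, rfl⟩ := h
    have hC : C ≠ 0 := by
      rintro rfl
      apply hz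
      ext i j
      fin_cases i <;> fin_cases j <;> simp [mk]
    refine ⟨![0, C], ?_, fun a b c h0 => ?_⟩
    · intro h
      exact hC (by simpa using congrFun h 1)
    · have hb : b = 0 := by
        have h1 : (b * C) ^ 2 = 0 := by linear_combination h0
        have h2 := pow_eq_zero_iff (two_ne_zero) |>.1 h1
        exact (mul_eq_zero.1 h2).resolve_right hC
      refine exists_mul ?_ ?_
      · intro h
        exact hC (by simpa using congrFun h 1)
      · simp [mk, Matrix.mulVec, dotProduct, Fin.sum_univ_two, hb]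
  · refine ⟨![B, -A], ?_, fun a b c h0 => ?_⟩
    · intro h1
      apply h
      refine ⟨by simpa using congrFun h1 0, ?_⟩
      have := congrFun h1 1
      simpa using this
    · have ht : c * B + 2 * a * A + b * C = 0 := by
        have h1 : (c * B + 2 * a * A + b * C) ^ 2 = 0 := by
          linear_combination h0 + (4 * a ^ 2 + 4 * b * c) * hd
        exact pow_eq_zero_iff (two_ne_zero) |>.1 h1
      refine exists_mul ?_ ?_
      · intro h1
        apply h
        refine ⟨by simpa using congrFun h1 0, ?_⟩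
        have := congrFun h1 1
        simpa using this
      · simp only [mk, Matrix.mulVec, dotProduct, Fin.sum_univ_two, Matrix.cons_val_zero,
          Matrix.cons_val_one, Matrix.of_apply, Matrix.cons_val']
        simp
        linear_combination B * ht - b * hd

/-- **The main step.** A Lie algebra of matrices with trace zero, with scalar commutant, without
stable line, is `sl(2)`. -/
theorem full {N : Submodule ℚ S} (h0 : ∀ x ∈ N, x.trace = 0)
    (hbr : ∀ x ∈ N, ∀ y ∈ N, x * y - y * x ∈ N)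
    (hc : ∀ P : S, (∀ x ∈ N, x * P = P * x) → ∃ c : ℚ, P = c • 1)
    (hs : ∀ v : Fin 2 → ℚ, v ≠ 0 → ¬ ∀ x ∈ N, ∃ t : ℚ, x.mulVec v = t • v)
    {w : S} (hw : w.trace = 0) : w ∈ N := by
  -- not commutative
  have h1 : ∃ x ∈ N, ∃ y ∈ N, x * y - y * x ≠ 0 := by
    by_contra hcon
    push Not at hcon
    have hN : ∀ x ∈ N, x = 0 := by
      intro x hx
      obtain ⟨c, hcx⟩ := hc x fun y hy => sub_eq_zero.1 (hcon y hy x hx)
      have h2 := h0 x hx
      rw [hcx, Matrix.trace_smul, Matrix.trace_one, Fintype.card_fin, smul_eq_mul] at h2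
      have h3 : c = 0 := by
        push_cast at h2
        linarith
      rw [hcx, h3, zero_smul]
    obtain ⟨c, hE⟩ := hc E fun x hx => by rw [hN x hx, zero_mul, mul_zero]
    have h2 := congrFun (congrFun hE 0) 1
    simp [E, mk] at h2
  obtain ⟨x, hx, y, hy, hxy⟩ := h1
  obtain ⟨a, b, c, rfl⟩ := exists_mk (h0 x hx)
  obtain ⟨a', b', c', rfl⟩ := exists_mk (h0 y hy)
  by_cases hD : (b * c' - b' * c) ^ 2 + 4 * (c * a' - c' * a) * (a * b' - a' * b) = 0
  swap
  · exact full_of hbr hx hy hD hw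
  have hz := hbr _ hx _ hy
  rw [br_mk] at hz hxy
  obtain ⟨A, hA⟩ : ∃ A, A = b * c' - b' * c := ⟨_, rfl⟩
  obtain ⟨B, hB⟩ : ∃ B, B = 2 * (a * b' - a' * b) := ⟨_, rfl⟩
  obtain ⟨C, hC⟩ : ∃ C, C = 2 * (c * a' - c' * a) := ⟨_, rfl⟩
  rw [← hA, ← hB, ← hC] at hz hxy
  have hd : A ^ 2 + B * C = 0 := by
    rw [hA, hB, hC]
    linear_combination hD
  obtain ⟨v, hv, hv'⟩ := stable_line hxy hd
  by_contra hcon
  apply hs v hv
  intro x hx
  obtain ⟨p, q, r, rfl⟩ := exists_mk (h0 x hx)
  apply hv'
  by_contra hD'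
  exact hcon (full_of hbr hx hz hD' hw)

end Pool.Agent.N955.MO
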